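import Pool.Agent.HUK.Stmts
import Pool.Agent.Helper15_HIP.CLI
import Pool.Agent.Helper91_HIP.DET
import Pool.Agent.Helper44_HIP.MNM
import Pool.Agent.Helper17_HIP.HSD
import Pool.Agent.Helper92_HIP.LNV

/-! HUK, module CLU: few integral points in one residue class, uniformly. -/

set_option autoImplicit false

namespace Pool.Agent.HUK.H64

open Polynomial NumberField Matrix Pool.Agent.MTL Pool.Agent.HIK Pool.Agent.HIP Pool.Agent.HUK

/-- CLU -/
theorem clu (hN : NruStmt) : CluStmt := by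
  classical
  have hD : DetStmt := Pool.Agent.HIP.H91.det
  have hM : MnmStmt := Pool.Agent.HIP.H44.mnm
  have hH : HsdStmt := Pool.Agent.HIP.H17.hsd
  have hL : LnvStmt := Pool.Agent.HIP.H92.lnv
  intro D G M
  obtain ⟨B, hB'⟩ := hN D G M
  refine ⟨B, ?_⟩
  intro K _ _ g hmon hDg hdeg hG hirr p hp a0 y0 n0 T Y hnT hT1 h0 h1 hbig S y hST hSt hSy
    hroot hY
  have hB := hB' (𝓞 K) g hmon (le_of_eq hDg) hG hirr
  rw [hDg] at hB
  obtain ⟨v, hv⟩ := h1
  have hR : 1 ≤ D * (M + 1) := Nat.mul_pos (by omega) (by omega)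
  obtain ⟨c, hc⟩ := HIK.H15.tay (𝓞 K) g (p : 𝓞 K) (a0 + n0) y0 v h0 hv (D * (M + 1)) hR
  choose cc hcc using hM (𝓞 K) (p : 𝓞 K) (D * (M + 1)) c
  -- the vectors
  let e : Fin (D * (M + 1)) ≃ Fin D × Fin (M + 1) := finProdFinEquiv.symm
  let w : ℕ → Fin (D * (M + 1)) → 𝓞 K := fun n r =>
    (((n : ℤ) - n0 : ℤ) : 𝓞 K) ^ ((e r).2 : ℕ) * (y n) ^ ((e r).1 : ℕ)
  have hdet : ∀ f : Fin (D * (M + 1)) → ℕ, (∀ i, f i ∈ S) →
      (Matrix.of fun i r => w (f i) r).det = 0 := by
    intro f hf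
    have hb : ∀ i, ∃ b : ℤ, (f i : ℤ) - n0 = p * b := fun i => hSt (f i) (hf i)
    choose b hb using hb
    have hbO : ∀ i, (((f i : ℤ) - n0 : ℤ) : 𝓞 K) = (p : 𝓞 K) * (b i : 𝓞 K) := by
      intro i
      rw [hb i]
      push_cast
      rfl
    have hdvd := hD (𝓞 K) (D * (M + 1)) (p : 𝓞 K) (fun i => (b i : 𝓞 K))
      (Matrix.of fun i r => w (f i) r) (fun r => cc ((e r).2 : ℕ) ((e r).1 : ℕ)) (by
        intro i r
        change (p : 𝓞 K) ^ (D * (M + 1)) ∣ w (f i) r - _
        simp only [w]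
        rw [hbO i]
        refine hcc _ _ (b i : 𝓞 K) (y (f i)) ?_
        refine hc (b i) (y (f i)) (hSy _ (hf i)) ?_
        have h2 : a0 + (n0 : 𝓞 K) + (p : 𝓞 K) * (b i : 𝓞 K) = a0 + ((f i : ℕ) : 𝓞 K) := by
          rw [← hbO i]
          push_cast
          ring
        rw [h2]
        exact hroot _ (hf i))
    have hle := hH K (D * (M + 1)) (Matrix.of fun i r => ((w (f i) r : 𝓞 K) : K))
      (fun r => (T : ℝ) ^ ((e r).2 : ℕ) * (Y : ℝ) ^ ((e r).1 : ℕ)) (by
        intro i r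
        change house ((w (f i) r : 𝓞 K) : K) ≤ _
        have h2 : ((w (f i) r : 𝓞 K) : K) =
            (((f i : ℤ) - n0 : ℤ) : K) ^ ((e r).2 : ℕ) *
              ((y (f i) : 𝓞 K) : K) ^ ((e r).1 : ℕ) := by
          simp only [w]
          push_cast
          rfl
        rw [h2]
        refine (house_mul_le _ _).trans ?_
        refine mul_le_mul ((house_pow_le _ _).trans (pow_le_pow_left₀ (house_nonneg _) ?_ _))
          ((house_pow_le _ _).trans (pow_le_pow_left₀ (house_nonneg _) (hY _ (hf i)) _))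
          (house_nonneg _) (by positivity)
        rw [house_intCast]
        have h3 : |(f i : ℤ) - n0| ≤ (T : ℤ) := by
          have := hST _ (hf i)
          rw [abs_le]
          constructor <;> omega
        exact_mod_cast h3)
    refine HIK.H10.eq_zero_of_house (p ^ (∑ k ∈ Finset.range (D * (M + 1)), k)) _ ?_ ?_
    · push_cast
      exact hdvd
    · have h4 : (((Matrix.of fun i r => w (f i) r).det : 𝓞 K) : K) =
          (Matrix.of fun i r => ((w (f i) r : 𝓞 K) : K)).det := by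
        have h := RingHom.map_det (algebraMap (𝓞 K) K) (Matrix.of fun i r => w (f i) r)
        refine h.trans ?_
        congr 1
      rw [h4]
      refine lt_of_le_of_lt hle ?_
      rw [HIP.H15.prodb]
      exact_mod_cast hbig
  -- the linear relation
  obtain ⟨q, hq0, hq⟩ := hL K (D * (M + 1)) S (fun n r => ((w n r : 𝓞 K) : K)) (by
    intro f _ hf
    have h4 : (((Matrix.of fun i r => w (f i) r).det : 𝓞 K) : K) =
        (Matrix.of fun i r => ((w (f i) r : 𝓞 K) : K)).det := by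
      have h := RingHom.map_det (algebraMap (𝓞 K) K) (Matrix.of fun i r => w (f i) r)
      refine h.trans ?_
      congr 1
    rw [← h4, hdet f hf]
    rfl)
  obtain ⟨d, hd⟩ := IsLocalization.exist_integer_multiples_of_finite
    (nonZeroDivisors (𝓞 K)) q
  choose q' hq' using hd
  have hd0 : (algebraMap (𝓞 K) K (d : 𝓞 K)) ≠ 0 := by
    have h2 : (d : 𝓞 K) ≠ 0 := nonZeroDivisors.ne_zero d.2
    intro h3
    exact h2 ((FaithfulSMul.algebraMap_injective (𝓞 K) K) (by rw [h3, map_zero]))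
  have hqr : ∀ r, algebraMap (𝓞 K) K (q' r) = algebraMap (𝓞 K) K (d : 𝓞 K) * q r := by
    intro r
    rw [hq' r, Algebra.smul_def]
  have hrel : ∀ n ∈ S, ∑ r, w n r * q' r = 0 := by
    intro n hn
    apply FaithfulSMul.algebraMap_injective (𝓞 K) K
    rw [map_sum, map_zero]
    have h2 := hq n hn
    calc ∑ r, algebraMap (𝓞 K) K (w n r * q' r) =
        algebraMap (𝓞 K) K (d : 𝓞 K) * ∑ r, ((w n r : 𝓞 K) : K) * q r := by
          rw [Finset.mul_sum]
          refine Finset.sum_congr rfl fun r _ => ?_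
          rw [map_mul, hqr]
          ring
      _ = 0 := by rw [h2, mul_zero]
  have hq'0 : (fun x : Fin D × Fin (M + 1) => q' (e.symm x)) ≠ 0 := by
    intro h2
    apply hq0
    funext r
    have h3 := congrFun h2 (e r)
    simp only [Equiv.symm_apply_apply, Pi.zero_apply] at h3
    have h4 := hqr r
    rw [h3, map_zero] at h4
    rcases mul_eq_zero.1 h4.symm with h5 | h5
    · exact absurd h5 hd0
    · exact h5
  obtain ⟨h, hh0, hh1, hh2, hh3⟩ := HIP.H15.exh D M (fun x => q' (e.symm x)) hq'0 (a0 + n0)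
  have hinj : Function.Injective (fun n : ℕ => a0 + (n : 𝓞 K)) := by
    intro m n hmn
    have : (m : 𝓞 K) = n := add_left_cancel hmn
    exact_mod_cast this
  rw [← Finset.card_image_of_injective S hinj]
  refine hB h hh0 hh1 hh2 _ ?_
  intro t ht
  obtain ⟨n, hn, rfl⟩ := Finset.mem_image.1 ht
  refine ⟨y n, hroot n hn, ?_⟩
  rw [hh3, ← hrel n hn]
  rw [← Equiv.sum_comp e]
  refine Finset.sum_congr rfl fun r _ => ?_
  simp only [w, Equiv.symm_apply_apply]
  congr 3
  push_cast
  ring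

end Pool.Agent.HUK.H64
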